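import Pool.Agent.Helper41.Fam.PT

set_option autoImplicit false

/-!
# Module COV: every orbit meets a Siegel set
-/

namespace Pool.Agent.Helper10.Fam

open Pool.Agent.Helper10.Lor
open scoped BigOperators

/-- a vector is bounded in terms of its products with the simple roots -/
theorem cov_bound (hAl : ST_ALPH) (D : Dat) (β : Fin D.n → E D.n) (hD : DOK D)
    (hβ : IsBase D β) : ∃ C : ℝ, ∀ z : E D.n, (∀ k, |inner ℝ z (β k)| ≤ 1) → ‖z‖ ≤ C := by
  let F : E D.n →ₗ[ℝ] (Fin D.n → ℝ) :=
    { toFun := fun z k => inner ℝ z (β k)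
      map_add' := fun z z' => by
        funext k
        simp only [inner_add_left, Pi.add_apply]
      map_smul' := fun c z => by
        funext k
        simp only [inner_smul_left, Pi.smul_apply, smul_eq_mul, RingHom.id_apply, conj_trivial] }
  have hF : ∀ z k, F z k = inner ℝ z (β k) := fun z k => rfl
  have hinj : Function.Injective F := by
    rw [← LinearMap.ker_eq_bot, LinearMap.ker_eq_bot']
    intro z hz
    have h0 : ∀ k, inner ℝ z (β k) = 0 := by
      intro k
      rw [← hF, hz]
      rfl
    have hval : ∀ k ∈ Finset.range (D.n + 2), form ((0, 0, z) : LV D.n) (alp D β k) = 0 := by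
      intro k _
      unfold alp
      split_ifs with h1 h2
      · simp only [form]
        rw [h0]
        ring
      · simp only [form]
        rw [inner_neg_right, inner_sum]
        have : ∑ j : Fin D.n, inner ℝ z ((D.w0.getD j 0 : ℝ) • β j) = 0 := by
          apply Finset.sum_eq_zero
          intro j _
          rw [inner_smul_right, h0, mul_zero]
        rw [this]
        ring
      · simp only [form, inner_zero_right]
        ring
    have hrep := hAl.rep D β hD hβ ((0, 0, z) : LV D.n)
    have h3 : rv D β (fun i => ∑ k ∈ Finset.range (D.n + 2),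
        (ent D.H i k : ℝ) * form ((0, 0, z) : LV D.n) (alp D β k) / D.d) = 0 := by
      unfold rv
      rw [neg_eq_zero]
      apply Finset.sum_eq_zero
      intro i _
      have : ∑ k ∈ Finset.range (D.n + 2),
          (ent D.H i k : ℝ) * form ((0, 0, z) : LV D.n) (alp D β k) / D.d = 0 := by
        apply Finset.sum_eq_zero
        intro k hk
        rw [hval k hk]
        ring
      beta_reduce
      rw [this, zero_smul]
    rw [h3] at hrep
    have h4 := congrArg (fun v : LV D.n => v.2.2) hrep
    simpa using h4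
  obtain ⟨K, _, hK⟩ := (LinearMap.injective_iff_antilipschitz F).mp hinj
  refine ⟨K, fun z hz => ?_⟩
  have h1 : ‖z‖ ≤ K * ‖F z‖ := by
    have h0 := hK.le_mul_dist z 0
    rw [map_zero, dist_zero_right, dist_zero_right] at h0
    exact h0
  have h2 : ‖F z‖ ≤ 1 := by
    rw [pi_norm_le_iff_of_nonneg zero_le_one]
    intro k
    rw [hF, Real.norm_eq_abs]
    exact hz k
  calc ‖z‖ ≤ K * ‖F z‖ := h1
    _ ≤ K * 1 := mul_le_mul_of_nonneg_left h2 K.coe_nonneg
    _ = K := mul_one _

/-- the coordinates of a point of the chamber, except the last one, are bounded -/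
theorem cov_coord (hC : ST_LSTC) (D : Dat) (hD : DOK D) (x : ℕ → ℝ) (hx : IsPt D x) :
    ∀ k < D.n + 1, x k ≤ D.d := by
  intro k hk
  have hd : (1 : ℝ) ≤ D.d := by exact_mod_cast hD.dpos
  have h1 := hx.nrm
  rw [hC.bl_range D.H (D.n + 2) x x hD.lenH hD.lenH'] at h1
  have hk2 : k < D.n + 2 := by omega
  have h2 : (ent D.H k k : ℝ) * x k * x k ≤ D.d := by
    rw [← h1]
    have hnn : ∀ i j, 0 ≤ (ent D.H i j : ℝ) * x i * x j := fun i j =>
      mul_nonneg (mul_nonneg (Nat.cast_nonneg _) (hx.nn i)) (hx.nn j)
    calc (ent D.H k k : ℝ) * x k * x k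
        ≤ ∑ j ∈ Finset.range (D.n + 2), (ent D.H k j : ℝ) * x k * x j :=
          Finset.single_le_sum (f := fun j => (ent D.H k j : ℝ) * x k * x j)
            (fun j _ => hnn k j) (Finset.mem_range.mpr hk2)
      _ ≤ _ := Finset.single_le_sum
            (f := fun i => ∑ j ∈ Finset.range (D.n + 2), (ent D.H i j : ℝ) * x i * x j)
            (fun i _ => Finset.sum_nonneg fun j _ => hnn i j) (Finset.mem_range.mpr hk2)
  have h3 : (1 : ℝ) ≤ ent D.H k k := by
    exact_mod_cast hD.posH k hk2 k hk2 (by omega)
  have h4 : x k * x k ≤ D.d := by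
    have h5 : 0 ≤ x k * x k := mul_self_nonneg _
    nlinarith
  by_contra h5
  push Not at h5
  nlinarith [hx.nn k]

theorem st_COV (hC : ST_LSTC) (hAl : ST_ALPH) (hPT : ST_PT) (hRED : ST_RED) : ST_COV := by
  intro D β hD hβ
  obtain ⟨C, hCz⟩ := cov_bound hAl D β hD hβ
  have hd : (1 : ℝ) ≤ D.d := by exact_mod_cast hD.dpos
  set B : ℝ := ∑ k ∈ Finset.range (D.n + 1), fn D.w0 k * D.d with hB
  have hfn : ∀ k < D.n + 1, 1 ≤ fn D.w0 k := by
    intro k hk
    unfold fn
    exact_mod_cast hD.w0pos k hk
  have hBpos : 0 < B := by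
    have h1 : fn D.w0 0 * D.d ≤ B := by
      rw [hB]
      apply Finset.single_le_sum (f := fun k => fn D.w0 k * (D.d : ℝ))
      · intro k hk
        have := hfn k (Finset.mem_range.mp hk)
        positivity
      · exact Finset.mem_range.mpr (by omega)
    have h2 := hfn 0 (by omega)
    have h3 : (0 : ℝ) < fn D.w0 0 * D.d := by
      apply mul_pos <;> linarith
    linarith
  refine ⟨C, 1 / B, by positivity, ?_⟩
  intro p hp
  obtain ⟨γ, hγ, hx⟩ := hRED D β hD hβ p hp
  refine ⟨γ, hγ, ?_⟩
  have hq : act γ p ∈ UH D.n := act_mem hγ.1 hp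
  set q := act γ p with hqdef
  have hr : (0 : ℝ) < q.2 := hq
  have hpt := hPT.isPt D β hD hβ q hq hx
  have hw : 1 / q.2 = ∑ i ∈ Finset.range (D.n + 2), fn D.w0 i * xc D β q i := by
    rw [← uval_w0 hq, ← hPT.uval_rv D β (fn D.w0) q]
    have h1 := hAl.wv_w0 D β hD
    unfold wv at h1
    rw [h1]
  have hlast : fn D.w0 (D.n + 1) = 0 := by
    unfold fn
    rw [hD.w0a]
    simp
  rw [Finset.sum_range_succ, hlast, zero_mul, add_zero] at hw
  constructor
  · apply hCz
    have hnk : ∀ k : Fin D.n, xc D β q k = inner ℝ q.1 (β k) / q.2 := by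
      intro k
      have hk2 : (k : ℕ) < D.n + 2 := by omega
      unfold xc alp
      rw [if_pos hk2, dif_pos k.2]
      simp only [form, vec, inner_smul_left, conj_trivial]
      ring
    have hnn : ∀ k : Fin D.n, 0 ≤ inner ℝ q.1 (β k) := by
      intro k
      have h1 := hpt.nn k
      rw [hnk k] at h1
      by_contra h2
      push Not at h2
      have := div_neg_of_neg_of_pos h2 hr
      linarith
    intro k
    rw [abs_of_nonneg (hnn k)]
    have h1 : xc D β q k ≤ 1 / q.2 := by
      rw [hw]
      calc xc D β q k ≤ fn D.w0 k * xc D β q k := by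
            have h2 := hfn k (by omega)
            have h3 := hpt.nn k
            nlinarith
        _ ≤ _ := by
            apply Finset.single_le_sum (f := fun i => fn D.w0 i * xc D β q i)
            · intro i hi
              have h2 := hfn i (Finset.mem_range.mp hi)
              have h3 := hpt.nn i
              exact mul_nonneg (by linarith) h3
            · exact Finset.mem_range.mpr (by omega)
    rw [hnk k] at h1
    exact (div_le_div_iff_of_pos_right hr).mp h1
  · have h1 : 1 / q.2 ≤ B := by
      rw [hw, hB]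
      apply Finset.sum_le_sum
      intro i hi
      have hi2 := Finset.mem_range.mp hi
      have h2 := hfn i hi2
      exact mul_le_mul_of_nonneg_left (cov_coord hC D hD _ hpt i hi2) (by linarith)
    rw [div_le_iff₀ hr] at h1
    rw [div_le_iff₀ hBpos]
    linarith

end Pool.Agent.Helper10.Fam
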