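import Pool.Agent.Helper10.Fam.Stmts

set_option autoImplicit false

/-!
# Module PT: coordinates of points
-/

namespace Pool.Agent.Helper10.Fam

open Pool.Agent.Helper10.Lor
open scoped BigOperators

theorem pt_form_neg {n : ℕ} (v w : LV n) : form v (-w) = -form v w := by
  unfold form
  simp only [Prod.snd_neg, Prod.fst_neg, inner_neg_right]
  ring

theorem pt_form_add {n : ℕ} (v w w' : LV n) : form v (w + w') = form v w + form v w' := by
  unfold form
  simp only [Prod.snd_add, Prod.fst_add, inner_add_right]
  ring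

theorem pt_form_smul {n : ℕ} (v : LV n) (c : ℝ) (w : LV n) : form v (c • w) = c * form v w := by
  unfold form
  simp only [Prod.smul_snd, Prod.smul_fst, inner_smul_right, smul_eq_mul]
  ring

theorem pt_form_zero {n : ℕ} (v : LV n) : form v 0 = 0 := by
  unfold form
  simp

theorem pt_form_sum {n : ℕ} (v : LV n) (s : Finset ℕ) (m : ℕ → ℝ) (f : ℕ → LV n) :
    form v (∑ i ∈ s, m i • f i) = ∑ i ∈ s, m i * form v (f i) := by
  classical
  induction s using Finset.induction_on with
  | empty => simp [pt_form_zero]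
  | insert a s ha ih => rw [Finset.sum_insert ha, Finset.sum_insert ha, pt_form_add,
      pt_form_smul, ih]

theorem pt_form_comm {n : ℕ} (v w : LV n) : form v w = form w v := by
  unfold form
  rw [real_inner_comm]
  ring

/-- the form with a vector given by coordinates -/
theorem pt_form_rv (D : Dat) (β : Fin D.n → E D.n) (v : LV D.n) (m : ℕ → ℝ) :
    form v (rv D β m) = -∑ i ∈ Finset.range (D.n + 2), m i * form v (alp D β i) := by
  unfold rv
  rw [pt_form_neg, pt_form_sum]

/-- norm of a vector of the hyperboloid -/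
theorem pt_form_vec_self {n : ℕ} {p : Pt n} (hp : p ∈ UH n) : form (vec p) (vec p) = -1 := by
  have h := form_vec hp hp
  have hr : (0 : ℝ) < p.2 := hp
  rw [h]
  simp only [sub_self, norm_zero]
  field_simp
  ring

theorem pt_uval_rv (D : Dat) (β : Fin D.n → E D.n) (m : ℕ → ℝ) (p : Pt D.n) :
    uval (rv D β m) p = ∑ i ∈ Finset.range (D.n + 2), m i * xc D β p i := by
  unfold uval
  rw [pt_form_rv, neg_neg]
  apply Finset.sum_congr rfl
  intro i hi
  unfold xc
  rw [if_pos (Finset.mem_range.mp hi)]

theorem pt_isPt (hC : ST_LSTC) (hAl : ST_ALPH) (D : Dat) (β : Fin D.n → E D.n) (hD : DOK D)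
    (hβ : IsBase D β) (p : Pt D.n) (hp : p ∈ UH D.n)
    (hx : ∀ i < D.n + 2, 0 ≤ xc D β p i) : IsPt D (xc D β p) := by
  have hd : (0 : ℝ) < D.d := by exact_mod_cast hD.dpos
  have hvp : ∀ m : ℕ → ℝ, form (vec p) (rv D β m)
      = -∑ i ∈ Finset.range (D.n + 2), m i * xc D β p i := by
    intro m
    have h := pt_uval_rv D β m p
    unfold uval at h
    linarith
  -- the vector with the values `y` on the simple roots
  have hsum : ∀ x y : ℕ → ℝ, ∑ i ∈ Finset.range (D.n + 2),
      (∑ k ∈ Finset.range (D.n + 2), (ent D.H i k : ℝ) * y k / D.d) * x i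
        = bl D.H x y / D.d := by
    intro x y
    rw [hC.bl_range D.H (D.n + 2) x y hD.lenH hD.lenH', Finset.sum_div]
    apply Finset.sum_congr rfl
    intro i _
    rw [Finset.sum_mul, Finset.sum_div]
    apply Finset.sum_congr rfl
    intro k _
    ring
  refine ⟨?_, ?_, ?_, ?_, ?_⟩
  · intro i
    by_cases hi : i < D.n + 2
    · exact hx i hi
    · unfold xc
      rw [if_neg hi]
  · intro i hi
    unfold xc
    rw [if_neg (by omega)]
  · have h1 := hAl.rep D β hD hβ (vec p)
    have h2 : form (vec p) (vec p) = -(bl D.H (xc D β p) (xc D β p) / D.d) := by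
      have h2 : form (vec p) (vec p) = form (vec p) (rv D β (fun i =>
          ∑ k ∈ Finset.range (D.n + 2),
            (ent D.H i k : ℝ) * form (vec p) (alp D β k) / D.d)) := congrArg (form (vec p)) h1
      rw [h2, hvp, ← hsum]
      congr 1
      apply Finset.sum_congr rfl
      intro i _
      congr 1
      apply Finset.sum_congr rfl
      intro k hk
      unfold xc
      rw [if_pos (Finset.mem_range.mp hk)]
    rw [pt_form_vec_self hp] at h2
    have h3 : bl D.H (xc D β p) (xc D β p) / D.d = 1 := by linarith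
    rw [div_eq_one_iff_eq hd.ne'] at h3
    exact h3
  · intro y
    set m : ℕ → ℝ := fun i => ∑ k ∈ Finset.range (D.n + 2), (ent D.H i k : ℝ) * y k / D.d
      with hm
    have hval : ∀ j < D.n + 2, form (rv D β m) (alp D β j) = y j := by
      intro j hj
      rw [hAl.rv_form D β hD hβ m j hj]
      have h1 : ∑ i ∈ Finset.range (D.n + 2), (ent D.G i j : ℝ) * m i
          = ∑ k ∈ Finset.range (D.n + 2), y k / D.d *
            (∑ i ∈ Finset.range (D.n + 2), (ent D.H k i : ℝ) * (ent D.G i j : ℝ)) := by
        simp only [hm, Finset.mul_sum]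
        rw [Finset.sum_comm]
        apply Finset.sum_congr rfl
        intro k hk
        apply Finset.sum_congr rfl
        intro i hi
        rw [hD.symH i (Finset.mem_range.mp hi) k (Finset.mem_range.mp hk)]
        ring
      have h2 : ∀ k ∈ Finset.range (D.n + 2), y k / D.d *
            (∑ i ∈ Finset.range (D.n + 2), (ent D.H k i : ℝ) * (ent D.G i j : ℝ))
          = 2 * ((ent D.H j k : ℝ) * y k / D.d) + if k = j then y k else 0 := by
        intro k hk
        have h3 := hD.mat k (Finset.mem_range.mp hk) j hj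
        have h4 : (∑ i ∈ Finset.range (D.n + 2), (ent D.H k i : ℝ) * (ent D.G i j : ℝ))
            = 2 * (ent D.H k j : ℝ) + if k = j then (D.d : ℝ) else 0 := by
          have := congrArg (fun t : ℕ => (t : ℝ)) h3
          push_cast at this
          exact this
        rw [h4, hD.symH k (Finset.mem_range.mp hk) j hj]
        split_ifs with hkj
        · field_simp
        · ring
      rw [h1, Finset.sum_congr rfl h2, Finset.sum_add_distrib, ← Finset.mul_sum]
      rw [Finset.sum_ite_eq' (Finset.range (D.n + 2)) j, if_pos (Finset.mem_range.mpr hj)]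
      simp only [hm]
      ring
    have h5 : form (rv D β m) (rv D β m) = -(bl D.H y y / D.d) := by
      rw [pt_form_rv, ← hsum y y]
      congr 1
      apply Finset.sum_congr rfl
      intro i hi
      rw [hval i (Finset.mem_range.mp hi)]
    have h6 := rcs (rv D β m) hp
    rw [h5, hvp m, hsum (xc D β p) y] at h6
    have h7 : bl D.H y y / D.d ≤ (bl D.H (xc D β p) y) ^ 2 / (D.d : ℝ) ^ 2 := by
      have : (-(bl D.H (xc D β p) y / D.d)) ^ 2 = (bl D.H (xc D β p) y) ^ 2 / (D.d : ℝ) ^ 2 := by
        ring
      rw [← this]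
      linarith
    rw [div_le_div_iff₀ hd (by positivity)] at h7
    have h8 : (D.d : ℝ) * (D.d * bl D.H y y) ≤ D.d * (bl D.H (xc D β p) y) ^ 2 := by
      nlinarith [h7]
    exact le_of_mul_le_mul_left h8 hd
  · intro m
    have h6 := rcs (rv D β m) hp
    rw [hvp m] at h6
    have h5 : form (rv D β m) (rv D β m)
        = -(bl D.G m m - 2 * ∑ i ∈ Finset.range (D.n + 2), m i ^ 2) := by
      rw [pt_form_rv, hC.bl_range D.G (D.n + 2) m m hD.lenG hD.lenG', Finset.mul_sum,
        Finset.sum_comm, ← Finset.sum_sub_distrib]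
      congr 1
      apply Finset.sum_congr rfl
      intro j hj
      rw [hAl.rv_form D β hD hβ m j (Finset.mem_range.mp hj), mul_add, Finset.mul_sum]
      have : ∑ i ∈ Finset.range (D.n + 2), m j * ((ent D.G i j : ℝ) * m i)
          = ∑ i ∈ Finset.range (D.n + 2), (ent D.G i j : ℝ) * m i * m j := by
        apply Finset.sum_congr rfl
        intro i _
        ring
      rw [this]
      ring
    rw [h5] at h6
    have h7 : (-∑ i ∈ Finset.range (D.n + 2), m i * xc D β p i) ^ 2
        = (∑ i ∈ Finset.range (D.n + 2), m i * xc D β p i) ^ 2 := by ring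
    rw [h7] at h6
    linarith

theorem st_PT (hA : ST_LSTA) (hC : ST_LSTC) (hAl : ST_ALPH) : ST_PT := by
  refine ⟨pt_uval_rv, ?_, pt_isPt hC hAl⟩
  intro D β m p hm
  unfold wv
  rw [pt_uval_rv, hA.dx_range m (D.n + 2) _ hm]

end Pool.Agent.Helper10.Fam
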